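import Pool.Agent.Helper38.F5.CaseOne

/-!
# F5 Count: the primes above `p` are distributed evenly over the four factors

`Nm x` is the product of the four conjugates of `x`, an integer `nm x`. Each `pi t l` has
`(nm (pi t l))^2 = p^2`, and `nm (lam^5 q - Y)` is `nm Y` modulo `25`. So
`p^(3 s_i) nm Y = ± (nm r_i)^5` modulo `25`, and `p` has order `5` modulo `25`.
-/

set_option autoImplicit false

namespace Pool.Agent.Helper87.F5

open NumberField Pool.Agent.Helper38.F5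

/-- the product of the conjugates -/
private noncomputable def Nm (x : O) : O :=
  sg 1 (by norm_num) x * sg 2 (by norm_num) x * sg 3 (by norm_num) x * sg 4 (by norm_num) x

private lemma Nm_mul (x y : O) : Nm (x * y) = Nm x * Nm y := by
  unfold Nm
  simp only [map_mul]
  ring

private lemma Nm_one : Nm 1 = 1 := by
  unfold Nm
  simp only [map_one, mul_one]

private lemma Nm_int (n : ℤ) : Nm (n : O) = (n : O) ^ 4 := by
  unfold Nm
  simp only [map_intCast]
  ring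

private lemma Nm_sg (a : ℕ) (ha : ¬ 5 ∣ a) (x : O) (h : a % 5 = 1 ∨ a % 5 = 2 ∨ a % 5 = 3 ∨ a % 5 = 4) :
    Nm (sg a ha x) = Nm x := by
  unfold Nm
  rcases h with h | h | h | h
  · rw [sg_comp_eq 1 a 1 _ ha (by norm_num) (by omega) x,
      sg_comp_eq 2 a 2 _ ha (by norm_num) (by omega) x,
      sg_comp_eq 3 a 3 _ ha (by norm_num) (by omega) x,
      sg_comp_eq 4 a 4 _ ha (by norm_num) (by omega) x]
  · rw [sg_comp_eq 1 a 2 _ ha (by norm_num) (by omega) x,
      sg_comp_eq 2 a 4 _ ha (by norm_num) (by omega) x,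
      sg_comp_eq 3 a 1 _ ha (by norm_num) (by omega) x,
      sg_comp_eq 4 a 3 _ ha (by norm_num) (by omega) x]
    ring
  · rw [sg_comp_eq 1 a 3 _ ha (by norm_num) (by omega) x,
      sg_comp_eq 2 a 1 _ ha (by norm_num) (by omega) x,
      sg_comp_eq 3 a 4 _ ha (by norm_num) (by omega) x,
      sg_comp_eq 4 a 2 _ ha (by norm_num) (by omega) x]
    ring
  · rw [sg_comp_eq 1 a 4 _ ha (by norm_num) (by omega) x,
      sg_comp_eq 2 a 3 _ ha (by norm_num) (by omega) x,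
      sg_comp_eq 3 a 2 _ ha (by norm_num) (by omega) x,
      sg_comp_eq 4 a 1 _ ha (by norm_num) (by omega) x]
    ring

private lemma sg2_Nm (x : O) : sg 2 (by norm_num) (Nm x) = Nm x := by
  unfold Nm
  simp only [map_mul]
  rw [sg_comp_eq 2 1 2 _ _ (by norm_num) (by norm_num) x,
    sg_comp_eq 2 2 4 _ _ (by norm_num) (by norm_num) x,
    sg_comp_eq 2 3 1 _ _ (by norm_num) (by norm_num) x,
    sg_comp_eq 2 4 3 _ _ (by norm_num) (by norm_num) x]
  ring

private lemma int_of_fixed {x : O} (h : sg 2 (by norm_num) x = x) : ∃ n : ℤ, (n : O) = x := by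
  obtain ⟨a, b, c, d, rfl⟩ := coords x
  simp only [map_add, map_mul, map_pow, map_intCast, sg_z] at h
  have h5 := z5
  have hr := z_rel
  have h1 : ((-c : ℤ) : O) + ((d - c - b : ℤ) : O) * z + ((b - 2 * c : ℤ) : O) * z ^ 2 +
      ((-c - d : ℤ) : O) * z ^ 3 = 0 := by
    push_cast
    linear_combination h - (c : O) * hr - (d : O) * z * h5
  obtain ⟨e1, e2, e3, e4⟩ := coords_inj h1
  have hc : c = 0 := by omega
  have hd : d = 0 := by omega
  have hb : b = 0 := by omega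
  subst hc hd hb
  exact ⟨a, by simp⟩

/-- the norm as an integer -/
private noncomputable def nm (x : O) : ℤ := (int_of_fixed (sg2_Nm x)).choose

private lemma nm_spec (x : O) : (nm x : O) = Nm x := (int_of_fixed (sg2_Nm x)).choose_spec

private lemma cast_inj {a b : ℤ} (h : (a : O) = (b : O)) : a = b := by exact_mod_cast h

private lemma nm_mul (x y : O) : nm (x * y) = nm x * nm y := by
  apply cast_inj
  push_cast
  rw [nm_spec, nm_spec, nm_spec, Nm_mul]

private lemma nm_one : nm 1 = 1 := by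
  apply cast_inj
  rw [nm_spec, Nm_one, Int.cast_one]

private lemma nm_int (n : ℤ) : nm (n : O) = n ^ 4 := by
  apply cast_inj
  push_cast
  rw [nm_spec, Nm_int]

private lemma nm_pow (x : O) (k : ℕ) : nm (x ^ k) = nm x ^ k := by
  induction k with
  | zero => rw [pow_zero, pow_zero, nm_one]
  | succ k ih => rw [pow_succ, pow_succ, nm_mul, ih]

private lemma nm_unit {x : O} (hx : IsUnit x) : nm x ^ 2 = 1 := by
  obtain ⟨y, hy⟩ := hx.exists_right_inv
  have h := congrArg nm hy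
  rw [nm_mul, nm_one] at h
  have h1 : IsUnit (nm x) := IsUnit.of_mul_eq_one _ h
  rcases Int.isUnit_iff.1 h1 with h2 | h2 <;> rw [h2] <;> norm_num

section
variable {p : ℕ} [Fact p.Prime] (t : O →+* ZMod p)

private lemma nm_pi (hp : p ≠ 5) (l : Fin 4) : nm (pi t l) ^ 2 = (p : ℤ) ^ 2 := by
  have h1 : Nm (pi t l) = ∏ k, pi t k := by
    have e1 : Nm (pi t l) = Nm (pi1 t) := by
      unfold pi
      refine Nm_sg _ _ _ ?_
      revert l
      decide
    rw [e1, Fin.prod_univ_four]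
    show Nm (pi1 t) = sg 1 _ (pi1 t) * sg 3 _ (pi1 t) * sg 2 _ (pi1 t) * sg 4 _ (pi1 t)
    unfold Nm
    ring
  obtain ⟨v, hv⟩ := prod_pi t hp
  rw [← h1, ← nm_spec] at hv
  have h2 := congrArg nm hv
  have hpc : ((p : ℤ) : O) = (p : O) := by push_cast; rfl
  rw [nm_mul, nm_int, ← hpc, nm_int] at h2
  have h3 := nm_unit v.isUnit
  have h4 : (nm (pi t l) ^ 2) ^ 4 = ((p : ℤ) ^ 2) ^ 4 := by
    calc (nm (pi t l) ^ 2) ^ 4 = (nm (pi t l) ^ 4 * nm (v : O)) ^ 2 := by
          rw [mul_pow, h3]; ring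
      _ = ((p : ℤ) ^ 2) ^ 4 := by rw [h2]; ring
  exact (pow_left_inj₀ (sq_nonneg _) (sq_nonneg _) (by norm_num)).1 h4

end

private lemma cc_sg (k : ℕ) (hk : ¬ 5 ∣ k) (x : O) : cc (sg k hk x) = cc x := by
  have h : cc.comp (sg k hk) = cc := by
    apply hom_ext
    rw [RingHom.comp_apply, sg_z, map_pow, cc_z, one_pow]
  exact congrArg (fun g => g x) h

private lemma nm_cc (x : O) : ((nm x : ℤ) : ZMod 5) = cc x ^ 4 := by
  have h := congrArg cc (nm_spec x)
  rw [map_intCast] at h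
  rw [h]
  unfold Nm
  simp only [map_mul, cc_sg]
  ring

private lemma dvd_25 {n : ℤ} (h : lam ^ 5 ∣ (n : O)) : (25 : ℤ) ∣ n := by
  have h1 : (5 : ℤ) ∣ n := by
    have h2 : cc (n : O) = 0 := (lam_dvd_cc _).1 ((dvd_pow_self lam (by norm_num)).trans h)
    rw [map_intCast] at h2
    exact (ZMod.intCast_zmod_eq_zero_iff_dvd _ 5).1 h2
  obtain ⟨m, rfl⟩ := h1
  obtain ⟨q, hq⟩ := h
  have h3 : (∏ i, eps i) * (m : O) = lam * q := by
    apply mul_left_cancel₀ (pow_ne_zero 4 lam_prime.ne_zero)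
    push_cast at hq
    linear_combination hq - (m : O) * five_lam
  have h4 : cc ((∏ i, eps i) * (m : O)) = 0 := (lam_dvd_cc _).1 ⟨q, h3⟩
  have hu : IsUnit (cc (∏ i, eps i)) := by
    refine IsUnit.map cc ?_
    rw [IsUnit.prod_univ_iff]
    exact eps_unit
  rw [map_mul, map_intCast] at h4
  have h5 : (m : ZMod 5) = 0 := (mul_eq_zero.1 h4).resolve_left hu.ne_zero
  obtain ⟨r, rfl⟩ := (ZMod.intCast_zmod_eq_zero_iff_dvd _ 5).1 h5
  exact ⟨r, by push_cast; ring⟩

private lemma sg_lam5 (k : ℕ) (hk : ¬ 5 ∣ k) (q : O) : ∃ q', sg k hk (lam ^ 5 * q) = lam ^ 5 * q' := by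
  have h : sg k hk lam = lam * ∑ s ∈ Finset.range k, z ^ s := by
    rw [← one_sub_zpow]
    unfold lam
    rw [map_sub, map_one, sg_z]
  refine ⟨(∑ s ∈ Finset.range k, z ^ s) ^ 5 * sg k hk q, ?_⟩
  rw [map_mul, map_pow, h]
  ring

private lemma nm_mod (q Y : O) : (25 : ℤ) ∣ nm (lam ^ 5 * q - Y) - nm Y := by
  apply dvd_25
  push_cast
  rw [nm_spec, nm_spec]
  unfold Nm
  simp only [map_sub]
  obtain ⟨q1, h1⟩ := sg_lam5 1 (by norm_num) q
  obtain ⟨q2, h2⟩ := sg_lam5 2 (by norm_num) q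
  obtain ⟨q3, h3⟩ := sg_lam5 3 (by norm_num) q
  obtain ⟨q4, h4⟩ := sg_lam5 4 (by norm_num) q
  rw [h1, h2, h3, h4]
  generalize sg 1 _ Y = a
  generalize sg 2 _ Y = b
  generalize sg 3 _ Y = c
  generalize sg 4 _ Y = d
  generalize lam ^ 5 = L
  refine ⟨q1 * ((L * q2 - b) * (L * q3 - c) * (L * q4 - d)) -
    a * q2 * ((L * q3 - c) * (L * q4 - d)) + a * b * q3 * (L * q4 - d) - a * b * c * q4, ?_⟩
  ring

private lemma pow20 (n : ZMod 25) : n ^ 20 = 1 ∨ n ^ 20 = 0 := by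
  revert n
  decide

private lemma pow4_ne (y : ZMod 25) : y ^ 4 * y ^ 16 = 0 → 5 * y = 0 := by
  revert y
  decide

section
variable {p : ℕ} [Fact p.Prime] (t : O →+* ZMod p)

private lemma nm_dl (hp : p ≠ 5) (c : Fin 4 → Fin 5) (i : Fin 5) :
    nm (dl t c i) ^ 2 = ((p : ℤ) ^ 2) ^ (Finset.univ.filter (fun k => c k = i)).card := by
  classical
  unfold dl
  generalize Finset.univ.filter (fun k => c k = i) = s
  induction s using Finset.induction_on with
  | empty => simp [nm_one]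
  | insert a s ha ih =>
    rw [Finset.prod_insert ha, nm_mul, mul_pow, ih, nm_pi t hp, Finset.card_insert_of_notMem ha,
      pow_succ]
    ring

private lemma key (hp5 : p % 5 = 1) {Y : O} (hY : ok Y) {g : Fin 5 → O} {c : Fin 4 → Fin 5}
    (hlam5 : ∀ i : Fin 4, ∃ q, g i.succ = lam ^ 5 * q - Y)
    (hsplit : ∀ i, ∃ u r : O, IsUnit u ∧ (dl t c i) ^ 3 * g i = u * r ^ 5) (i : Fin 4) :
    ((p : ZMod 25) ^ 12) ^ (Finset.univ.filter (fun k => c k = i.succ)).card *
      ((nm Y : ℤ) : ZMod 25) ^ 4 = 1 := by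
  have hp : p ≠ 5 := by
    rintro rfl
    norm_num at hp5
  obtain ⟨u, r, hu, h⟩ := hsplit i.succ
  obtain ⟨q, hq⟩ := hlam5 i
  have hg : ((nm (g i.succ) : ℤ) : ZMod 25) = ((nm Y : ℤ) : ZMod 25) := by
    have h1 := nm_mod q Y
    rw [← hq] at h1
    have h2 := (ZMod.intCast_zmod_eq_zero_iff_dvd _ 25).2 h1
    push_cast at h2
    exact sub_eq_zero.1 h2
  have h1 := congrArg nm h
  rw [nm_mul, nm_mul, nm_pow, nm_pow] at h1
  have h2 := nm_dl t hp c i.succ
  set s := (Finset.univ.filter (fun k => c k = i.succ)).card with hs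
  have e : (((p : ℤ) ^ 12) ^ s) = ((((p : ℤ) ^ 2) ^ s) ^ 3) ^ 2 := by
    simp only [← pow_mul]
    congr 1
    ring
  have h3 : (((p : ℤ) ^ 12) ^ s) * nm (g i.succ) ^ 4 = nm r ^ 20 := by
    calc (((p : ℤ) ^ 12) ^ s) * nm (g i.succ) ^ 4
        = ((((p : ℤ) ^ 2) ^ s) ^ 3 * nm (g i.succ) ^ 2) ^ 2 := by
          rw [e]
          ring
      _ = ((nm (dl t c i.succ) ^ 3 * nm (g i.succ)) ^ 2) ^ 2 := by rw [← h2]; ring
      _ = ((nm u * nm r ^ 5) ^ 2) ^ 2 := by rw [h1]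
      _ = (nm u ^ 2 * nm r ^ 10) ^ 2 := by ring
      _ = nm r ^ 20 := by rw [nm_unit hu]; ring
  have h4 := congrArg (Int.cast : ℤ → ZMod 25) h3
  push_cast at h4
  rw [hg] at h4
  rw [h4]
  refine (pow20 _).resolve_right fun h5 => ?_
  rw [h5] at h4
  have hyc : ((nm Y : ℤ) : ZMod 5) ≠ 0 := by
    rw [nm_cc]
    exact pow_ne_zero 4 hY
  have hP : IsUnit ((p : ZMod 25)) := by
    rw [ZMod.isUnit_iff_coprime]
    have h25 : (25 : ℕ) = 5 ^ 2 := by norm_num
    rw [h25]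
    exact Nat.Coprime.pow_right 2
      ((Nat.coprime_primes (Fact.out : p.Prime) Nat.prime_five).2 hp)
  have h6 : ((nm Y : ℤ) : ZMod 25) ^ 4 = 0 := by
    have hu2 : IsUnit (((p : ZMod 25) ^ 12) ^ s) := (hP.pow 12).pow s
    exact (hu2.mul_right_eq_zero).1 h4
  have h7 := pow4_ne _ (by rw [h6, zero_mul])
  have h8 : (25 : ℤ) ∣ 5 * nm Y :=
    (ZMod.intCast_zmod_eq_zero_iff_dvd (5 * nm Y) 25).1 (by push_cast; exact h7)
  apply hyc
  rw [ZMod.intCast_zmod_eq_zero_iff_dvd]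
  push_cast
  omega

private lemma fin_chk : ∀ P : ZMod 25, (P = 6 ∨ P = 11 ∨ P = 16 ∨ P = 21) →
    ∀ a b : Fin 5, (P ^ 12) ^ (a : ℕ) = (P ^ 12) ^ (b : ℕ) → a = b := by
  intro P hP
  rcases hP with rfl | rfl | rfl | rfl <;> decide

theorem count_eq {p : ℕ} [Fact p.Prime] (t : O →+* ZMod p) (hp5 : p % 5 = 1)
    (hp25 : p % 25 ≠ 1) {Y : O} (hY : ok Y) {g : Fin 5 → O} {c : Fin 4 → Fin 5}
    (hlam5 : ∀ i : Fin 4, ∃ q, g i.succ = lam ^ 5 * q - Y)
    (hsplit : ∀ i, ∃ u r : O, IsUnit u ∧ (dl t c i) ^ 3 * g i = u * r ^ 5) (i j : Fin 4) :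
    (Finset.univ.filter (fun k => c k = i.succ)).card =
      (Finset.univ.filter (fun k => c k = j.succ)).card := by
  have hi := key t hp5 hY hlam5 hsplit i
  have hj := key t hp5 hY hlam5 hsplit j
  have hci : (Finset.univ.filter (fun k => c k = i.succ)).card < 5 :=
    lt_of_le_of_lt (Finset.card_le_univ _) (by simp)
  have hcj : (Finset.univ.filter (fun k => c k = j.succ)).card < 5 :=
    lt_of_le_of_lt (Finset.card_le_univ _) (by simp)
  have hP : (p : ZMod 25) = 6 ∨ (p : ZMod 25) = 11 ∨ (p : ZMod 25) = 16 ∨ (p : ZMod 25) = 21 := by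
    have h1 : p % 25 = 6 ∨ p % 25 = 11 ∨ p % 25 = 16 ∨ p % 25 = 21 := by omega
    have h2 : (p : ZMod 25) = ((p % 25 : ℕ) : ZMod 25) := (ZMod.natCast_mod p 25).symm
    rw [h2]
    rcases h1 with h | h | h | h <;> rw [h] <;> decide
  have hy : IsUnit (((nm Y : ℤ) : ZMod 25) ^ 4) := IsUnit.of_mul_eq_one _ (by rw [mul_comm]; exact hi)
  have h3 := hy.mul_left_injective (hi.trans hj.symm)
  exact congrArg Fin.val (fin_chk _ hP ⟨_, hci⟩ ⟨_, hcj⟩ h3)

end

end Pool.Agent.Helper87.F5
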