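import Mathlib

set_option autoImplicit false

/-!
# F5 Red: from `A + B = C`, `A B C` a fifth power, `gcd = p` to `x^5 + y^5 = p^2 z^5`

Write `A = p a`, `B = p b`, `C = p c`, `D = p d` with `a + b = c` pairwise coprime and
`a b c = p^2 d^5`. The prime `p` divides exactly one of `a, b, c`; the other two are fifth powers and
the third one is `p^2 z^5`.
-/

namespace Pool.Agent.Helper87.F5

private theorem key (p : ℕ) (hp : p.Prime) (u v w d : ℕ) (huv : Nat.Coprime u v)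
    (huw : Nat.Coprime u w) (hvw : Nat.Coprime v w) (h : u * v * w = p ^ 2 * d ^ 5)
    (hpw : p ∣ w) : ∃ x y z : ℕ, u = x ^ 5 ∧ v = y ^ 5 ∧ w = p ^ 2 * z ^ 5 := by
  have hup : Nat.Coprime u p := Nat.Coprime.coprime_dvd_right hpw huw
  have hvp : Nat.Coprime v p := Nat.Coprime.coprime_dvd_right hpw hvw
  have hup3 : Nat.Coprime u (p ^ 3 * w) := (hup.pow_right 3).mul_right huw
  have hvp3 : Nat.Coprime v (p ^ 3 * w) := (hvp.pow_right 3).mul_right hvw
  have hu : ∃ x, u = x ^ 5 := by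
    refine exists_eq_pow_of_mul_eq_pow (a := u) (b := v * (p ^ 3 * w)) (c := p * d) (k := 5) ?_ ?_
    · exact Nat.isUnit_iff.2 (huv.mul_right hup3)
    · calc u * (v * (p ^ 3 * w)) = p ^ 3 * (u * v * w) := by ring
        _ = p ^ 3 * (p ^ 2 * d ^ 5) := by rw [h]
        _ = (p * d) ^ 5 := by ring
  have hv : ∃ y, v = y ^ 5 := by
    refine exists_eq_pow_of_mul_eq_pow (a := v) (b := u * (p ^ 3 * w)) (c := p * d) (k := 5) ?_ ?_
    · exact Nat.isUnit_iff.2 (huv.symm.mul_right hvp3)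
    · calc v * (u * (p ^ 3 * w)) = p ^ 3 * (u * v * w) := by ring
        _ = p ^ 3 * (p ^ 2 * d ^ 5) := by rw [h]
        _ = (p * d) ^ 5 := by ring
  have hw : ∃ t, p ^ 3 * w = t ^ 5 := by
    refine exists_eq_pow_of_mul_eq_pow (a := p ^ 3 * w) (b := u * v) (c := p * d) (k := 5) ?_ ?_
    · exact Nat.isUnit_iff.2 (hup3.symm.mul_right hvp3.symm)
    · calc p ^ 3 * w * (u * v) = p ^ 3 * (u * v * w) := by ring
        _ = p ^ 3 * (p ^ 2 * d ^ 5) := by rw [h]
        _ = (p * d) ^ 5 := by ring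
  obtain ⟨x, hx⟩ := hu
  obtain ⟨y, hy⟩ := hv
  obtain ⟨t, ht⟩ := hw
  have hpt : p ∣ t := by
    refine hp.dvd_of_dvd_pow (n := 5) ?_
    rw [← ht]
    exact Dvd.dvd.mul_left hpw _
  obtain ⟨z, rfl⟩ := hpt
  refine ⟨x, y, z, hx, hy, ?_⟩
  have h3 : 0 < p ^ 3 := pow_pos hp.pos 3
  refine Nat.eq_of_mul_eq_mul_left h3 ?_
  rw [ht]
  ring

theorem reduce (p : ℕ) (hp : p.Prime) (A B C D : ℕ) (hA : 0 < A) (hB : 0 < B) (hD : 0 < D)
    (h1 : A + B = C) (h2 : A * B * C = D ^ 5) (hg : Nat.gcd (Nat.gcd A B) C = p) :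
    ∃ x y z : ℤ, IsCoprime x y ∧ x ≠ 0 ∧ y ≠ 0 ∧ z ≠ 0 ∧
      x ^ 5 + y ^ 5 = (p : ℤ) ^ 2 * z ^ 5 := by
  have hgAB : Nat.gcd A B = p := by
    rw [← hg]
    refine (Nat.gcd_eq_left ?_).symm
    rw [← h1]
    exact Nat.dvd_add (Nat.gcd_dvd_left A B) (Nat.gcd_dvd_right A B)
  have hpA : p ∣ A := hgAB ▸ Nat.gcd_dvd_left A B
  have hpB : p ∣ B := hgAB ▸ Nat.gcd_dvd_right A B
  obtain ⟨a, rfl⟩ := hpA
  obtain ⟨b, rfl⟩ := hpB
  have hp0 : 0 < p := hp.pos
  have ha : 0 < a := by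
    rcases Nat.eq_zero_or_pos a with h0 | h0
    · subst h0; simp at hA
    · exact h0
  have hb : 0 < b := by
    rcases Nat.eq_zero_or_pos b with h0 | h0
    · subst h0; simp at hB
    · exact h0
  have hab : Nat.Coprime a b := by
    rw [Nat.gcd_mul_left] at hgAB
    have : p * Nat.gcd a b = p * 1 := by rw [hgAB, mul_one]
    exact Nat.eq_of_mul_eq_mul_left hp0 this
  obtain rfl : C = p * (a + b) := by rw [← h1]; ring
  have hac : Nat.Coprime a (a + b) := by
    simpa using hab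
  have hbc : Nat.Coprime b (a + b) := by
    simpa using hab.symm
  have hpD : p ∣ D := by
    refine hp.dvd_of_dvd_pow (n := 5) ?_
    rw [← h2]
    exact Dvd.dvd.mul_left (Dvd.intro _ rfl) _
  obtain ⟨d, rfl⟩ := hpD
  have hmain : a * b * (a + b) = p ^ 2 * d ^ 5 := by
    have h3 : 0 < p ^ 3 := pow_pos hp0 3
    refine Nat.eq_of_mul_eq_mul_left h3 ?_
    calc p ^ 3 * (a * b * (a + b)) = p * a * (p * b) * (p * (a + b)) := by ring
      _ = (p * d) ^ 5 := h2
      _ = p ^ 3 * (p ^ 2 * d ^ 5) := by ring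
  have hdiv : p ∣ a * b * (a + b) := by
    rw [hmain, pow_two, mul_assoc]
    exact Dvd.intro _ rfl
  rcases (Nat.Prime.dvd_mul hp).1 hdiv with h | h
  · rcases (Nat.Prime.dvd_mul hp).1 h with h | h
    · -- `p ∣ a`
      obtain ⟨x, y, z, hx, hy, hz⟩ := key p hp b (a + b) a d hbc hab.symm hac.symm
        (by rw [← hmain]; ring) h
      have hx0 : x ≠ 0 := by rintro rfl; simp at hx; omega
      have hy0 : y ≠ 0 := by rintro rfl; simp at hy; omega
      have hz0 : z ≠ 0 := by rintro rfl; simp at hz; omega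
      have hcop : Nat.Coprime y x := by
        have h5 : Nat.Coprime (y ^ 5) (x ^ 5) := by rw [← hx, ← hy]; exact hbc.symm
        exact (Nat.coprime_pow_left_iff (by norm_num) _ _).1
          ((Nat.coprime_pow_right_iff (by norm_num) _ _).1 h5)
      refine ⟨(y : ℤ), -(x : ℤ), (z : ℤ), ?_, by exact_mod_cast hy0, ?_, by exact_mod_cast hz0, ?_⟩
      · exact (Nat.isCoprime_iff_coprime.2 hcop).neg_right
      · exact neg_ne_zero.2 (by exact_mod_cast hx0)
      · have e1 : (b : ℤ) = (x : ℤ) ^ 5 := by exact_mod_cast hx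
        have e2 : (a : ℤ) + b = (y : ℤ) ^ 5 := by exact_mod_cast hy
        have e3 : (a : ℤ) = (p : ℤ) ^ 2 * (z : ℤ) ^ 5 := by exact_mod_cast hz
        rw [← e3]
        have e4 : (-(x : ℤ)) ^ 5 = -((x : ℤ) ^ 5) := by ring
        rw [e4, ← e1, ← e2]
        ring
    · -- `p ∣ b`
      obtain ⟨x, y, z, hx, hy, hz⟩ := key p hp a (a + b) b d hac hab hbc.symm
        (by rw [← hmain]; ring) h
      have hx0 : x ≠ 0 := by rintro rfl; simp at hx; omega
      have hy0 : y ≠ 0 := by rintro rfl; simp at hy; omega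
      have hz0 : z ≠ 0 := by rintro rfl; simp at hz; omega
      have hcop : Nat.Coprime y x := by
        have h5 : Nat.Coprime (y ^ 5) (x ^ 5) := by rw [← hx, ← hy]; exact hac.symm
        exact (Nat.coprime_pow_left_iff (by norm_num) _ _).1
          ((Nat.coprime_pow_right_iff (by norm_num) _ _).1 h5)
      refine ⟨(y : ℤ), -(x : ℤ), (z : ℤ), ?_, by exact_mod_cast hy0, ?_, by exact_mod_cast hz0, ?_⟩
      · exact (Nat.isCoprime_iff_coprime.2 hcop).neg_right
      · exact neg_ne_zero.2 (by exact_mod_cast hx0)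
      · have e1 : (a : ℤ) = (x : ℤ) ^ 5 := by exact_mod_cast hx
        have e2 : (a : ℤ) + b = (y : ℤ) ^ 5 := by exact_mod_cast hy
        have e3 : (b : ℤ) = (p : ℤ) ^ 2 * (z : ℤ) ^ 5 := by exact_mod_cast hz
        rw [← e3]
        have e4 : (-(x : ℤ)) ^ 5 = -((x : ℤ) ^ 5) := by ring
        rw [e4, ← e1, ← e2]
        ring
  · -- `p ∣ c`
    obtain ⟨x, y, z, hx, hy, hz⟩ := key p hp a b (a + b) d hab hac hbc hmain h
    have hx0 : x ≠ 0 := by rintro rfl; simp at hx; omega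
    have hy0 : y ≠ 0 := by rintro rfl; simp at hy; omega
    have hz0 : z ≠ 0 := by rintro rfl; simp at hz; omega
    have hcop : Nat.Coprime x y := by
      have h5 : Nat.Coprime (x ^ 5) (y ^ 5) := by rw [← hx, ← hy]; exact hab
      exact (Nat.coprime_pow_left_iff (by norm_num) _ _).1
        ((Nat.coprime_pow_right_iff (by norm_num) _ _).1 h5)
    refine ⟨(x : ℤ), (y : ℤ), (z : ℤ), Nat.isCoprime_iff_coprime.2 hcop, by exact_mod_cast hx0,
      by exact_mod_cast hy0, by exact_mod_cast hz0, ?_⟩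
    have e1 : (a : ℤ) = (x : ℤ) ^ 5 := by exact_mod_cast hx
    have e2 : (b : ℤ) = (y : ℤ) ^ 5 := by exact_mod_cast hy
    have e3 : (a : ℤ) + b = (p : ℤ) ^ 2 * (z : ℤ) ^ 5 := by exact_mod_cast hz
    rw [← e3, e1, e2]

end Pool.Agent.Helper87.F5
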